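import Mathlib

/-!
# Core and nucleus of a compact set in a complex manifold

A complex manifold of pure dimension `n` is a Hausdorff second countable space `M` with a
`ChartedSpace (EuclideanSpace ℂ (Fin n)) M` structure and `IsManifold 𝓘(ℂ, _) ω M`
(holomorphic transition maps).
-/

namespace Pool.Agent.Lib.MP_60ed70_an

open scoped Manifold ContDiff

/-- Four times the Levi form (complex Hessian) of `u` at `x` in the direction `v`: the second
derivative of `u` at `x` in the real direction `v` plus that in the real direction `i v`. -/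
noncomputable def leviForm {E : Type*} [NormedAddCommGroup E] [NormedSpace ℂ E]
    (u : E → ℝ) (x v : E) : ℝ :=
  iteratedDeriv 2 (fun s : ℝ => u (x + (s : ℂ) • v)) 0 +
    iteratedDeriv 2 (fun s : ℝ => u (x + ((s : ℂ) * Complex.I) • v)) 0

section

variable (n : ℕ) {M : Type*} [TopologicalSpace M] [ChartedSpace (EuclideanSpace ℂ (Fin n)) M]

/-- `φ` is real smooth near `x` and its Levi form at `x` is positive semidefinite (both read in the
preferred holomorphic chart at `x`). -/
def SmoothPshAt (φ : M → ℝ) (x : M) : Prop :=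
  ContDiffAt ℝ ∞ (φ ∘ (chartAt (EuclideanSpace ℂ (Fin n)) x).symm)
      (chartAt (EuclideanSpace ℂ (Fin n)) x x) ∧
    ∀ v : EuclideanSpace ℂ (Fin n), 0 ≤ leviForm (φ ∘ (chartAt (EuclideanSpace ℂ (Fin n)) x).symm)
      (chartAt (EuclideanSpace ℂ (Fin n)) x x) v

/-- The Levi form of `φ` at `x` is positive definite. -/
def StrictAt (φ : M → ℝ) (x : M) : Prop :=
  ∀ v : EuclideanSpace ℂ (Fin n), v ≠ 0 →
    0 < leviForm (φ ∘ (chartAt (EuclideanSpace ℂ (Fin n)) x).symm)
      (chartAt (EuclideanSpace ℂ (Fin n)) x x) v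

/-- The core of `K`: the points `ζ` of `K` such that no function which is smooth and
plurisubharmonic on some neighbourhood of `K` is strictly plurisubharmonic at `ζ`. -/
def core (K : Set M) : Set M :=
  {ζ | ζ ∈ K ∧ ¬ ∃ (U : Set M) (φ : M → ℝ), IsOpen U ∧ K ⊆ U ∧ (∀ x ∈ U, SmoothPshAt n φ x) ∧
    StrictAt n φ ζ}

/-- The spherical cap `{‖z‖ = 1, Re z₁ ≥ r}`. -/
def cap [NeZero n] (r : ℝ) : Set (EuclideanSpace ℂ (Fin n)) := {z | ‖z‖ = 1 ∧ r ≤ (z 0).re}

/-- The filled spherical hat `{‖z‖ ≤ 1, Re z₁ ≥ r}`. -/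
def hat [NeZero n] (r : ℝ) : Set (EuclideanSpace ℂ (Fin n)) := {z | ‖z‖ ≤ 1 ∧ r ≤ (z 0).re}

/-- `K''` arises from `K'` by a spherical cut: for some `r ∈ (0, 1)` and some injective holomorphic
map `Φ` of an open neighbourhood `U` of the hat into `M` whose cap misses `K'`, the set `K''` is
`K'` minus the image of the interior of the hat. -/
def IsCut [NeZero n] (K' K'' : Set M) : Prop :=
  IsCompact K' ∧ IsCompact K'' ∧
    ∃ (r : ℝ) (U : Set (EuclideanSpace ℂ (Fin n))) (Φ : EuclideanSpace ℂ (Fin n) → M),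
      0 < r ∧ r < 1 ∧ IsOpen U ∧ hat n r ⊆ U ∧ Set.InjOn Φ U ∧
      MDifferentiableOn 𝓘(ℂ, EuclideanSpace ℂ (Fin n)) 𝓘(ℂ, EuclideanSpace ℂ (Fin n)) Φ U ∧
      Disjoint (Φ '' cap n r) K' ∧ K'' = K' \ (Φ '' interior (hat n r))

/-- The nucleus of `K`: the intersection of all compact sets obtained from `K` by a finite chain of
successive spherical cuts. -/
def nucleus [NeZero n] (K : Set M) : Set M :=
  {ζ | ∀ K' : Set M, Relation.ReflTransGen (IsCut n) K K' → ζ ∈ K'}

end

end Pool.Agent.Lib.MP_60ed70_an
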