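import Mathlib

/-! The complex surface `ℂ × P¹` as a complex manifold modelled on `EuclideanSpace ℂ (Fin 2)`. -/

namespace Pool.Agent.Lib.MP_60ed70_an

open scoped Manifold Topology OnePoint
open Filter Set

noncomputable section

/-- `ℂ²`. -/
abbrev E2 : Type := EuclideanSpace ℂ (Fin 2)

/-- The Riemann sphere. -/
abbrev P1 : Type := OnePoint ℂ

/-- Finite coordinate on the sphere (junk value `0` at infinity). -/
def el (p : P1) : ℂ := p.elim 0 id

@[simp] lemma el_coe (w : ℂ) : el (w : P1) = w := rfl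
@[simp] lemma el_infty : el ∞ = 0 := rfl

lemma continuousOn_el : ContinuousOn el {∞}ᶜ := by
  intro p hp
  obtain ⟨w, rfl⟩ := OnePoint.ne_infty_iff_exists.1 hp
  apply ContinuousAt.continuousWithinAt
  rw [OnePoint.continuousAt_coe]
  exact continuousAt_id

/-- Inversion on the sphere. -/
def J (p : P1) : P1 := p.elim ((0 : ℂ) : P1) (fun w => if w = 0 then ∞ else ((w⁻¹ : ℂ) : P1))

@[simp] lemma J_infty : J ∞ = ((0 : ℂ) : P1) := rfl
lemma J_coe (w : ℂ) : J (w : P1) = if w = 0 then ∞ else ((w⁻¹ : ℂ) : P1) := rfl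
@[simp] lemma J_zero : J ((0 : ℂ) : P1) = ∞ := by simp [J_coe]
lemma J_coe_ne {w : ℂ} (hw : w ≠ 0) : J (w : P1) = ((w⁻¹ : ℂ) : P1) := by simp [J_coe, hw]

lemma J_J (p : P1) : J (J p) = p := by
  induction p using OnePoint.rec with
  | infty => simp
  | coe w =>
    by_cases hw : w = 0
    · subst hw; simp
    · rw [J_coe_ne hw, J_coe_ne (inv_ne_zero hw), inv_inv]

lemma continuous_J : Continuous J := by
  rw [continuous_iff_continuousAt]
  intro p
  induction p using OnePoint.rec with
  | infty =>
    rw [OnePoint.continuousAt_infty', Filter.coclosedCompact_eq_cocompact,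
      ← Metric.cobounded_eq_cocompact, J_infty]
    have h1 : Tendsto (fun w : ℂ => ((w⁻¹ : ℂ) : P1)) (Bornology.cobounded ℂ) (𝓝 ((0 : ℂ) : P1)) :=
      (OnePoint.continuous_coe.tendsto 0).comp Filter.tendsto_inv₀_cobounded
    refine h1.congr' ?_
    have h2 : ∀ᶠ w : ℂ in Bornology.cobounded ℂ, w ≠ 0 := by
      have h3 : ({0}ᶜ : Set ℂ) ∈ Bornology.cobounded ℂ := by
        rw [← Bornology.isBounded_def]
        exact Bornology.isBounded_singleton
      filter_upwards [h3] with w hw
      exact hw
    filter_upwards [h2] with w hw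
    simp [Function.comp, J_coe_ne hw]
  | coe w =>
    rw [OnePoint.continuousAt_coe]
    by_cases hw : w = 0
    · subst hw
      rw [continuousAt_iff_punctured_nhds]
      have h1 : Tendsto (fun w : ℂ => ((w⁻¹ : ℂ) : P1)) (𝓝[≠] (0 : ℂ)) (𝓝 ∞) := by
        have h2 := OnePoint.tendsto_coe_infty (X := ℂ)
        rw [Filter.coclosedCompact_eq_cocompact, ← Metric.cobounded_eq_cocompact] at h2
        exact h2.comp Filter.tendsto_inv₀_nhdsNE_zero
      simp only [Function.comp, J_zero]
      refine h1.congr' ?_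
      filter_upwards [self_mem_nhdsWithin] with w hw
      exact (J_coe_ne hw).symm
    · have h1 : ContinuousAt (fun w : ℂ => ((w⁻¹ : ℂ) : P1)) w :=
        OnePoint.continuous_coe.continuousAt.comp (continuousAt_inv₀ hw)
      refine h1.congr ?_
      filter_upwards [isOpen_ne.mem_nhds hw] with v hv
      simp [Function.comp, J_coe_ne hv]

/-- The complex surface `ℂ × P¹`. -/
def MM : Type := ℂ × P1

instance : TopologicalSpace MM := inferInstanceAs (TopologicalSpace (ℂ × P1))
instance : T2Space MM := inferInstanceAs (T2Space (ℂ × P1))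

/-- Vector in `ℂ²` with given coordinates. -/
def vec (a b : ℂ) : E2 := WithLp.toLp 2 ![a, b]

@[simp] lemma vec_zero (a b : ℂ) : (vec a b) 0 = a := rfl
@[simp] lemma vec_one (a b : ℂ) : (vec a b) 1 = b := rfl

lemma vec_eta (x : E2) : vec (x 0) (x 1) = x := by
  ext i
  fin_cases i <;> rfl

lemma continuous_vec : Continuous (fun q : ℂ × ℂ => vec q.1 q.2) := by
  unfold vec
  apply (PiLp.continuous_toLp 2 _).comp
  apply continuous_pi
  intro i
  fin_cases i
  · exact continuous_fst
  · exact continuous_snd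

/-- First chart `(z, w) ↦ (z, w)`. -/
def c0 : OpenPartialHomeomorph MM E2 where
  toFun q := vec q.1 (el q.2)
  invFun x := (x 0, ((x 1 : ℂ) : P1))
  source := {q | q.2 ≠ ∞}
  target := univ
  map_source' _ _ := mem_univ _
  map_target' x _ := OnePoint.coe_ne_infty _
  left_inv' := by
    rintro ⟨z, p⟩ hp
    obtain ⟨w, rfl⟩ := OnePoint.ne_infty_iff_exists.1 hp
    rfl
  right_inv' := by
    intro x _
    exact vec_eta x
  open_source := by
    have : IsOpen ({∞}ᶜ : Set P1) := OnePoint.isClosed_infty.isOpen_compl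
    exact this.preimage continuous_snd
  open_target := isOpen_univ
  continuousOn_toFun := by
    have h : ContinuousOn (fun q : MM => ((q.1, el q.2) : ℂ × ℂ)) {q | q.2 ≠ ∞} :=
      ContinuousOn.prodMk continuous_fst.continuousOn
        (continuousOn_el.comp continuous_snd.continuousOn (fun q hq => hq))
    exact continuous_vec.comp_continuousOn h
  continuousOn_invFun := by
    apply Continuous.continuousOn
    have h0 : Continuous (fun x : E2 => x 0) := by fun_prop
    have h1 : Continuous (fun x : E2 => x 1) := by fun_prop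
    exact h0.prodMk (OnePoint.continuous_coe.comp h1)

/-- Inversion in the second coordinate. -/
def Jh : MM ≃ₜ MM where
  toFun q := (q.1, J q.2)
  invFun q := (q.1, J q.2)
  left_inv q := by
    show ((q.1, J (J q.2)) : ℂ × P1) = q
    rw [J_J]
    rfl
  right_inv q := by
    show ((q.1, J (J q.2)) : ℂ × P1) = q
    rw [J_J]
    rfl
  continuous_toFun := continuous_fst.prodMk (continuous_J.comp continuous_snd)
  continuous_invFun := continuous_fst.prodMk (continuous_J.comp continuous_snd)

/-- Second chart `(z, w) ↦ (z, 1 / w)`. -/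
def c1 : OpenPartialHomeomorph MM E2 := Jh.toOpenPartialHomeomorph.trans c0

lemma c0_apply (q : MM) : c0 q = vec q.1 (el q.2) := rfl
lemma c0_symm_apply (x : E2) : c0.symm x = (x 0, ((x 1 : ℂ) : P1)) := rfl
lemma c1_apply (q : MM) : c1 q = vec q.1 (el (J q.2)) := rfl
lemma c1_symm_apply (x : E2) : c1.symm x = (x 0, J ((x 1 : ℂ) : P1)) := rfl

lemma c0_source : c0.source = {q : MM | q.2 ≠ ∞} := rfl
lemma mem_c1_source (q : MM) : q ∈ c1.source ↔ q.2 ≠ ((0 : ℂ) : P1) := by
  have : q ∈ c1.source ↔ J q.2 ≠ ∞ := by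
    unfold c1
    rw [OpenPartialHomeomorph.trans_source]
    simp only [Homeomorph.toOpenPartialHomeomorph_source, univ_inter]
    rfl
  rw [this]
  constructor
  · intro h h2
    apply h
    rw [h2, J_zero]
  · intro h h2
    apply h
    have := congrArg J h2
    rwa [J_J, J_infty] at this

open Classical in
instance : ChartedSpace E2 MM where
  atlas := {c0, c1}
  chartAt q := if q.2 = ∞ then c1 else c0
  mem_chart_source q := by
    by_cases h : q.2 = ∞
    · rw [if_pos h, mem_c1_source, h]
      exact OnePoint.infty_ne_coe _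
    · rw [if_neg h]
      exact h
  chart_mem_atlas q := by
    by_cases h : q.2 = ∞
    · rw [if_pos h]; exact Or.inr rfl
    · rw [if_neg h]; exact Or.inl rfl

lemma chartAt_infty (q : MM) (h : q.2 = ∞) : chartAt E2 q = c1 := by
  classical
  exact if_pos h
lemma chartAt_ne (q : MM) (h : q.2 ≠ ∞) : chartAt E2 q = c0 := by
  classical
  exact if_neg h

lemma contDiffOn_swap : ContDiffOn ℂ ⊤ (fun x : E2 => vec (x 0) ((x 1)⁻¹)) {x | x 1 ≠ 0} := by
  intro x hx
  apply ContDiffAt.contDiffWithinAt
  have h0 : ContDiffAt ℂ ⊤ (fun x : E2 => x 0) x := by fun_prop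
  have h1 : ContDiffAt ℂ ⊤ (fun x : E2 => (x 1)⁻¹) x := by
    have h2 : ContDiffAt ℂ ⊤ (fun x : E2 => x 1) x := by fun_prop
    exact ContDiffAt.comp (g := Inv.inv) x (contDiffAt_inv ℂ hx) h2
  rw [contDiffAt_piLp]
  intro i
  fin_cases i
  · exact h0
  · exact h1

instance : IsManifold 𝓘(ℂ, E2) ⊤ MM := by
  apply isManifold_of_contDiffOn
  have key : ∀ e ∈ atlas E2 MM, ContDiffOn ℂ ⊤ (𝓘(ℂ, E2) ∘ (e.symm ≫ₕ e) ∘ 𝓘(ℂ, E2).symm)
      (𝓘(ℂ, E2).symm ⁻¹' (e.symm ≫ₕ e).source ∩ range 𝓘(ℂ, E2)) := by
    intro e _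
    exact (mem_groupoid_of_pregroupoid.mpr (symm_trans_mem_contDiffGroupoid _)).1
  have hs01 : (c0.symm ≫ₕ c1).source ⊆ {x | x 1 ≠ 0} := by
    intro x hx
    rw [OpenPartialHomeomorph.trans_source] at hx
    have h2 : c0.symm x ∈ c1.source := hx.2
    rw [mem_c1_source, c0_symm_apply] at h2
    intro h3
    exact h2 (by simp only [h3])
  have hs10 : (c1.symm ≫ₕ c0).source ⊆ {x | x 1 ≠ 0} := by
    intro x hx
    rw [OpenPartialHomeomorph.trans_source] at hx
    have h2 : c1.symm x ∈ c0.source := hx.2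
    rw [c0_source, c1_symm_apply] at h2
    intro h3
    exact h2 (by simp only [h3, J_zero])
  intro e e' he he'
  rcases he with rfl | he
  · rcases he' with rfl | he'
    · exact key _ (Or.inl rfl)
    · rw [mem_singleton_iff] at he'
      subst he'
      apply (contDiffOn_swap.mono (fun x hx => hs01 hx.1)).congr
      intro x hx
      have hx1 : x 1 ≠ 0 := hs01 hx.1
      show c1 (c0.symm x) = _
      rw [c1_apply, c0_symm_apply]
      simp only [J_coe_ne hx1, el_coe]
  · rw [mem_singleton_iff] at he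
    subst he
    rcases he' with rfl | he'
    · apply (contDiffOn_swap.mono (fun x hx => hs10 hx.1)).congr
      intro x hx
      have hx1 : x 1 ≠ 0 := hs10 hx.1
      show c0 (c1.symm x) = _
      rw [c0_apply, c1_symm_apply]
      simp only [J_coe_ne hx1, el_coe]
    · rw [mem_singleton_iff] at he'
      subst he'
      exact key _ (Or.inr rfl)

instance : SecondCountableTopology MM := by
  have : SigmaCompactSpace MM := inferInstanceAs (SigmaCompactSpace (ℂ × P1))
  exact ChartedSpace.secondCountable_of_sigmaCompact E2 MM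

end

end Pool.Agent.Lib.MP_60ed70_an
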