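import Mathlib
import Pool.Agent.Lib.MP_60ed70_an.Mfd

/-! Spherical hats cannot cut the compact set `K`. -/

namespace Pool.Agent.Lib.MP_60ed70_an

open scoped Manifold Topology OnePoint
open Filter Set

noncomputable section

/-- Hurwitz-type lemma: if `F` is holomorphic near `(c, y₀)`, vanishes there, but not at nearby
points `(c + s, y)` with `s > 0`, then `F (c, ·)` vanishes identically near `y₀`. -/
lemma hurwitz (F : E2 → ℂ) (W : Set E2) (hW : IsOpen W) (hF : DifferentiableOn ℂ F W) (c y₀ : ℂ)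
    (hq : vec c y₀ ∈ W) (h0 : F (vec c y₀) = 0)
    (hne : ∀ x ∈ W, c.re < (x 0).re → F x ≠ 0) : ∀ᶠ y in 𝓝 y₀, F (vec c y) = 0 := by
  -- the two variable function
  have hcv : Continuous (fun q : ℂ × ℂ => vec q.1 q.2) := continuous_vec
  have hdv : ∀ a : ℂ, Differentiable ℂ (fun y : ℂ => vec a y) := by
    intro a
    have : (fun y : ℂ => vec a y) = fun y : ℂ => vec a 0 + y • vec 0 1 := by
      funext y
      ext i
      fin_cases i
      · simp [vec]
      · simp [vec]
    rw [this]
    fun_prop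
  set g : ℂ → ℂ := fun y => F (vec c y) with hg
  have hWc : IsOpen {y : ℂ | vec c y ∈ W} := hW.preimage (hdv c).continuous
  have hgd : DifferentiableOn ℂ g {y : ℂ | vec c y ∈ W} := by
    intro y hy
    exact ((hF.differentiableAt (hW.mem_nhds hy)).comp y (hdv c y)).differentiableWithinAt
  have hga : AnalyticAt ℂ g y₀ := hgd.analyticAt (hWc.mem_nhds hq)
  rcases hga.eventually_eq_zero_or_eventually_ne_zero with h | h
  · exact h
  · exfalso
    -- a product neighbourhood
    have hWq : (fun q : ℂ × ℂ => vec q.1 q.2) ⁻¹' W ∈ 𝓝 (c, y₀) :=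
      (hW.preimage hcv).mem_nhds hq
    rw [Metric.mem_nhds_iff] at hWq
    obtain ⟨ε, hε, hball⟩ := hWq
    rw [eventually_nhdsWithin_iff, Metric.eventually_nhds_iff] at h
    obtain ⟨δ, hδ, hδ'⟩ := h
    set ρ := min ε δ / 2 with hρ
    have hρ0 : 0 < ρ := by positivity
    have hρε : ρ < ε := by
      have : min ε δ ≤ ε := min_le_left _ _
      have h2 : 0 < min ε δ := by positivity
      linarith
    have hρδ : ρ < δ := by
      have : min ε δ ≤ δ := min_le_right _ _
      have h2 : 0 < min ε δ := by positivity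
      linarith
    have hmemW : ∀ a y : ℂ, dist a c < ε → dist y y₀ ≤ ρ → vec a y ∈ W := by
      intro a y ha hy
      apply hball (show ((a, y) : ℂ × ℂ) ∈ Metric.ball (c, y₀) ε from ?_)
      rw [Metric.mem_ball, Prod.dist_eq]
      exact max_lt ha (lt_of_le_of_lt hy hρε)
    -- minimum on the sphere
    have hsph : IsCompact (Metric.sphere y₀ ρ) := isCompact_sphere _ _
    have hsne : (Metric.sphere y₀ ρ).Nonempty := NormedSpace.sphere_nonempty.2 hρ0.le
    have hgc : ContinuousOn (fun y => ‖g y‖) (Metric.sphere y₀ ρ) := by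
      intro y hy
      have hy' : vec c y ∈ W := hmemW c y (by simpa using hε) (le_of_eq hy)
      exact ((hgd.differentiableAt (hWc.mem_nhds hy')).continuousAt.norm).continuousWithinAt
    obtain ⟨y₁, hy₁, hmin⟩ := hsph.exists_isMinOn hsne hgc
    set m := ‖g y₁‖ with hm
    have hm0 : 0 < m := by
      rw [hm, norm_pos_iff]
      apply hδ'
      · rw [Metric.mem_sphere.1 hy₁]; exact hρδ
      · rw [mem_compl_singleton_iff]
        intro h
        rw [h] at hy₁
        simp at hy₁
        exact hρ0.ne hy₁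
    -- near the sphere for nearby first coordinate
    have hev : ∀ᶠ a in 𝓝 c, ∀ y ∈ Metric.sphere y₀ ρ, m / 2 < ‖F (vec a y)‖ := by
      apply hsph.eventually_forall_of_forall_eventually
      intro y hy
      have hy' : vec c y ∈ W := hmemW c y (by simpa using hε) (le_of_eq hy)
      have hcont : ContinuousAt (fun q : ℂ × ℂ => ‖F (vec q.1 q.2)‖) (c, y) := by
        have h1 : ContinuousAt F (vec c y) := (hF.differentiableAt (hW.mem_nhds hy')).continuousAt
        have h2 : ContinuousAt (fun q : ℂ × ℂ => vec q.1 q.2) (c, y) := hcv.continuousAt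
        exact (ContinuousAt.comp (g := F) (f := fun q : ℂ × ℂ => vec q.1 q.2) h1 h2).norm
      have hlt : m / 2 < ‖F (vec c y)‖ := by
        have : m ≤ ‖g y‖ := hmin hy
        have h3 : ‖g y‖ = ‖F (vec c y)‖ := rfl
        linarith
      exact hcont.eventually (lt_mem_nhds hlt)
    have hcont0 : ContinuousAt (fun a : ℂ => ‖F (vec a y₀)‖) c := by
      have h1 : ContinuousAt F (vec c y₀) := (hF.differentiableAt (hW.mem_nhds hq)).continuousAt
      have h2 : ContinuousAt (fun a : ℂ => vec a y₀) c := by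
        have : Continuous (fun a : ℂ => vec a y₀) := hcv.comp (continuous_id.prodMk continuous_const)
        exact this.continuousAt
      exact (ContinuousAt.comp (g := F) (f := fun a : ℂ => vec a y₀) h1 h2).norm
    have hev2 : ∀ᶠ a in 𝓝 c, ‖F (vec a y₀)‖ < m / 2 := by
      have hlt : ‖F (vec c y₀)‖ < m / 2 := by
        rw [h0, norm_zero]
        positivity
      exact hcont0.eventually (gt_mem_nhds hlt)
    have hev3 : ∀ᶠ a in 𝓝 c, dist a c < ε := Metric.eventually_nhds_iff.2 ⟨ε, hε, fun y hy => hy⟩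
    -- choose a = c + s
    have htend : Tendsto (fun s : ℝ => c + (s : ℂ)) (𝓝[>] 0) (𝓝 c) := by
      have : Tendsto (fun s : ℝ => c + (s : ℂ)) (𝓝 0) (𝓝 (c + ((0 : ℝ) : ℂ))) := by
        apply Continuous.tendsto
        fun_prop
      simp only [Complex.ofReal_zero, add_zero] at this
      exact this.mono_left nhdsWithin_le_nhds
    have hall := (htend.eventually (hev.and (hev2.and hev3))).and
      (self_mem_nhdsWithin : ∀ᶠ s : ℝ in 𝓝[>] 0, s ∈ Ioi (0 : ℝ))
    obtain ⟨s, ⟨hs1, hs2, hs3⟩, hs4⟩ := hall.exists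
    set a : ℂ := c + (s : ℂ) with ha
    have hre : c.re < a.re := by
      rw [ha]; simp; exact hs4
    have hnz : ∀ y, dist y y₀ ≤ ρ → F (vec a y) ≠ 0 := by
      intro y hy
      apply hne _ (hmemW a y hs3 hy)
      simpa using hre
    -- maximum modulus for the inverse
    have hmax : ‖(F (vec a y₀))⁻¹‖ ≤ (m / 2)⁻¹ := by
      have hdc : DiffContOnCl ℂ (fun y => (F (vec a y))⁻¹) (Metric.ball y₀ ρ) := by
        apply DifferentiableOn.diffContOnCl
        rw [closure_ball _ hρ0.ne']
        intro y hy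
        have hy' : dist y y₀ ≤ ρ := hy
        have h1 : DifferentiableAt ℂ (fun y => F (vec a y)) y :=
          (hF.differentiableAt (hW.mem_nhds (hmemW a y hs3 hy'))).comp y (hdv a y)
        exact (h1.inv (hnz y hy')).differentiableWithinAt
      apply Complex.norm_le_of_forall_mem_frontier_norm_le Metric.isBounded_ball hdc
      · intro y hy
        rw [frontier_ball _ hρ0.ne'] at hy
        rw [norm_inv]
        exact inv_anti₀ (by positivity) (hs1 y hy).le
      · rw [closure_ball _ hρ0.ne']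
        exact Metric.mem_closedBall_self hρ0.le
    rw [norm_inv] at hmax
    have hpos : 0 < ‖F (vec a y₀)‖ := norm_pos_iff.2 (hnz y₀ (by simpa using hρ0.le))
    have := (inv_le_inv₀ hpos (by positivity)).1 hmax
    linarith

/-- The compact set `{|z| = 1} × P¹ ∪ {|z| ≤ 1} × {0}`. -/
def KK : Set MM := {q | ‖q.1‖ = 1 ∨ (‖q.1‖ ≤ 1 ∧ q.2 = ((0 : ℂ) : P1))}

lemma isClosed_KK : IsClosed KK := by
  have h1 : Continuous (fun q : MM => ‖q.1‖) := continuous_fst.norm
  have h2 : Continuous (fun q : MM => q.2) := continuous_snd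
  apply IsClosed.union
  · exact isClosed_eq h1 continuous_const
  · exact (isClosed_le h1 continuous_const).inter (isClosed_eq h2 continuous_const)

lemma isCompact_KK : IsCompact KK := by
  have h : IsCompact ((Metric.closedBall (0 : ℂ) 1) ×ˢ (univ : Set P1)) :=
    (isCompact_closedBall _ _).prod isCompact_univ
  have h' : IsCompact ({q : MM | ‖q.1‖ ≤ 1} : Set MM) := by
    have e : ({q : MM | ‖q.1‖ ≤ 1} : Set MM) =
      (((Metric.closedBall (0 : ℂ) 1) ×ˢ (univ : Set P1) : Set (ℂ × P1)) : Set MM) := by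
      ext q
      constructor
      · intro hq
        exact ⟨by simpa using hq, mem_univ _⟩
      · intro hq
        have := hq.1
        simpa using this
    rw [e]
    exact h
  apply h'.of_isClosed_subset isClosed_KK
  rintro q (hq | hq)
  · exact hq.le
  · exact hq.1

lemma chart_coord (Φ : E2 → MM) (x y : E2) : ((chartAt E2 (Φ x)) (Φ y)) 0 = (Φ y).1 := by
  by_cases h : (Φ x).2 = ∞
  · rw [chartAt_infty _ h, c1_apply, vec_zero]
  · rw [chartAt_ne _ h, c0_apply, vec_zero]

lemma mdiff_chart {Φ : E2 → MM} {U : Set E2} (hU : IsOpen U)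
    (hΦ : MDifferentiableOn 𝓘(ℂ, E2) 𝓘(ℂ, E2) Φ U) {x : E2} (hx : x ∈ U) :
    ContinuousAt Φ x ∧ DifferentiableAt ℂ (fun y => (chartAt E2 (Φ x)) (Φ y)) x := by
  have h := (hΦ x hx).mdifferentiableAt (hU.mem_nhds hx)
  rw [mdifferentiableAt_iff] at h
  refine ⟨h.1, ?_⟩
  have h2 := h.2
  simp only [mfld_simps] at h2
  rw [differentiableWithinAt_univ] at h2
  exact h2

/-- A hat whose spherical part misses `K` misses `K`. -/
lemma hat_disjoint (r : ℝ) (U : Set E2) (Φ : E2 → MM) (hU : IsOpen U)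
    (hsub : {z : E2 | ‖z‖ ≤ 1 ∧ r ≤ (z 0).re} ⊆ U)
    (hΦ : MDifferentiableOn 𝓘(ℂ, E2) 𝓘(ℂ, E2) Φ U)
    (hcap : ∀ z : E2, ‖z‖ = 1 → r ≤ (z 0).re → Φ z ∉ KK) (z : E2) (hz1 : ‖z‖ ≤ 1)
    (hz2 : r ≤ (z 0).re) : Φ z ∉ KK := by
  intro hz
  have hΦc : ContinuousOn Φ U := fun x hx => (mdiff_chart hU hΦ hx).1.continuousWithinAt
  set B : Set E2 := {z : E2 | ‖z‖ ≤ 1 ∧ r ≤ (z 0).re} ∩ Φ ⁻¹' KK with hB
  have hhat : IsCompact {z : E2 | ‖z‖ ≤ 1 ∧ r ≤ (z 0).re} := by
    have h1 : IsCompact (Metric.closedBall (0 : E2) 1) := isCompact_closedBall _ _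
    apply h1.of_isClosed_subset
    · apply (isClosed_le continuous_norm continuous_const).inter
      exact isClosed_le continuous_const (Complex.continuous_re.comp (by fun_prop))
    · intro x hx
      simpa using hx.1
  have hBc : IsCompact B := by
    apply hhat.of_isClosed_subset _ inter_subset_left
    exact (hΦc.mono hsub).preimage_isClosed_of_isClosed hhat.isClosed isClosed_KK
  have hBne : B.Nonempty := ⟨z, ⟨hz1, hz2⟩, hz⟩
  have hre : Continuous (fun x : E2 => (x 0).re) := Complex.continuous_re.comp (by fun_prop)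
  obtain ⟨p, hpB, hpmax⟩ := hBc.exists_isMaxOn hBne hre.continuousOn
  have hmax : ∀ x ∈ B, (x 0).re ≤ (p 0).re := fun x hx => hpmax hx
  set c := p 0 with hc
  have hrc : r ≤ c.re := hpB.1.2
  set E : Set ℂ := {y | vec c y ∈ B} with hE
  have hvc : Continuous (fun y : ℂ => vec c y) :=
    continuous_vec.comp (continuous_const.prodMk continuous_id)
  have hEclosed : IsClosed E := hBc.isClosed.preimage hvc
  have hEne : E.Nonempty := ⟨p 1, by show vec c (p 1) ∈ B; rw [hc, vec_eta]; exact hpB⟩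
  have hEbdd : ∀ y ∈ E, ‖y‖ ≤ 1 := by
    intro y hy
    have h1 : ‖vec c y‖ ≤ 1 := hy.1.1
    have h2 : ‖(vec c y) 1‖ ≤ ‖vec c y‖ := PiLp.norm_apply_le _ _
    rw [vec_one] at h2
    linarith
  have hEopen : IsOpen E := by
    rw [isOpen_iff_mem_nhds]
    intro y₀ hy₀
    set q := vec c y₀ with hq
    have hqB : q ∈ B := hy₀
    have hqU : q ∈ U := hsub hqB.1
    have hqlt : ‖q‖ < 1 := by
      rcases lt_or_eq_of_le hqB.1.1 with h | h
      · exact h
      · exact absurd hqB.2 (hcap q h hqB.1.2)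
    have hnorm : ∀ᶠ y in 𝓝 y₀, ‖vec c y‖ < 1 :=
      (hvc.norm.continuousAt (x := y₀)).eventually (gt_mem_nhds hqlt)
    by_cases hcase : ‖(Φ q).1‖ = 1
    · -- fibre case
      have hWo : IsOpen (U ∩ {x : E2 | ‖x‖ < 1}) :=
        hU.inter (isOpen_lt continuous_norm continuous_const)
      have hd : DifferentiableOn ℂ (fun x => (Φ x).1 - (Φ q).1) (U ∩ {x : E2 | ‖x‖ < 1}) := by
        intro x hx
        apply DifferentiableAt.differentiableWithinAt
        apply DifferentiableAt.sub_const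
        have h1 := (mdiff_chart hU hΦ hx.1).2
        have h2 : DifferentiableAt ℂ (fun y => ((chartAt E2 (Φ x)) (Φ y)) 0) x := by
          have : Differentiable ℂ (fun v : E2 => v 0) := by fun_prop
          exact (this _).comp x h1
        have h3 : (fun y => ((chartAt E2 (Φ x)) (Φ y)) 0) = fun y => (Φ y).1 := by
          funext y
          exact chart_coord Φ x y
        rwa [h3] at h2
      have := hurwitz (fun x => (Φ x).1 - (Φ q).1) _ hWo hd c y₀ ⟨hqU, hqlt⟩
        (by rw [← hq, sub_self]) (by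
          intro x hx hlt h0
          have hxK : Φ x ∈ KK := by
            left
            rw [sub_eq_zero] at h0
            rw [h0]
            exact hcase
          have hxB : x ∈ B := ⟨⟨(le_of_lt hx.2), hrc.trans hlt.le⟩, hxK⟩
          exact absurd (hmax x hxB) (not_le.2 hlt))
      filter_upwards [this, hnorm] with y h1 h2
      refine ⟨⟨h2.le, by rw [vec_zero]; exact hrc⟩, ?_⟩
      left
      rw [sub_eq_zero] at h1
      rw [h1]
      exact hcase
    · -- disc case
      have hqK : Φ q ∈ KK := hqB.2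
      rcases hqK with h | ⟨hle, h0⟩
      · exact absurd h hcase
      have hlt1 : ‖(Φ q).1‖ < 1 := lt_of_le_of_ne hle hcase
      have hVo : IsOpen ({q : MM | ‖q.1‖ < 1} ∩ {q : MM | q.2 ≠ ∞}) := by
        apply IsOpen.inter
        · exact isOpen_lt (continuous_fst.norm) continuous_const
        · have : IsOpen ({∞}ᶜ : Set P1) := OnePoint.isClosed_infty.isOpen_compl
          exact this.preimage continuous_snd
      have hWo : IsOpen ((U ∩ Φ ⁻¹' ({q : MM | ‖q.1‖ < 1} ∩ {q : MM | q.2 ≠ ∞})) ∩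
          {x : E2 | ‖x‖ < 1}) :=
        (hΦc.isOpen_inter_preimage hU hVo).inter (isOpen_lt continuous_norm continuous_const)
      have hd : DifferentiableOn ℂ (fun x => el (Φ x).2)
          ((U ∩ Φ ⁻¹' ({q : MM | ‖q.1‖ < 1} ∩ {q : MM | q.2 ≠ ∞})) ∩ {x : E2 | ‖x‖ < 1}) := by
        intro x hx
        apply DifferentiableAt.differentiableWithinAt
        have h1 := (mdiff_chart hU hΦ hx.1.1).2
        have hne : (Φ x).2 ≠ ∞ := hx.1.2.2
        rw [chartAt_ne _ hne] at h1
        have : Differentiable ℂ (fun v : E2 => v 1) := by fun_prop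
        exact (this _).comp x h1
      have hel : ∀ x : E2, (Φ x).2 ≠ ∞ → el (Φ x).2 = 0 → (Φ x).2 = ((0 : ℂ) : P1) := by
        intro x hne hx
        obtain ⟨w, hw⟩ := OnePoint.ne_infty_iff_exists.1 hne
        rw [← hw] at hx ⊢
        rw [el_coe] at hx
        rw [hx]
      have hqW : q ∈ (U ∩ Φ ⁻¹' ({q : MM | ‖q.1‖ < 1} ∩ {q : MM | q.2 ≠ ∞})) ∩
          {x : E2 | ‖x‖ < 1} := by
        refine ⟨⟨hqU, hlt1, ?_⟩, hqlt⟩
        show (Φ q).2 ≠ ∞
        rw [h0]
        exact OnePoint.coe_ne_infty _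
      have := hurwitz (fun x => el (Φ x).2) _ hWo hd c y₀ hqW (by
          show el (Φ q).2 = 0
          rw [h0, el_coe]) (by
          intro x hx hlt h0'
          have hxK : Φ x ∈ KK := Or.inr ⟨le_of_lt hx.1.2.1, hel x hx.1.2.2 h0'⟩
          have hxB : x ∈ B := ⟨⟨(le_of_lt hx.2), hrc.trans hlt.le⟩, hxK⟩
          exact absurd (hmax x hxB) (not_le.2 hlt))
      have hWev : ∀ᶠ y in 𝓝 y₀, vec c y ∈
          (U ∩ Φ ⁻¹' ({q : MM | ‖q.1‖ < 1} ∩ {q : MM | q.2 ≠ ∞})) ∩ {x : E2 | ‖x‖ < 1} :=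
        hvc.continuousAt (x := y₀) |>.eventually (hWo.mem_nhds hqW)
      filter_upwards [this, hWev] with y h1 h2
      refine ⟨⟨(le_of_lt h2.2), by rw [vec_zero]; exact hrc⟩, ?_⟩
      exact Or.inr ⟨le_of_lt h2.1.2.1, hel _ h2.1.2.2 h1⟩
  have huniv : E = univ := IsClopen.eq_univ ⟨hEclosed, hEopen⟩ hEne
  have h2 : (2 : ℂ) ∈ E := by rw [huniv]; exact mem_univ _
  have := hEbdd 2 h2
  norm_num at this

end

end Pool.Agent.Lib.MP_60ed70_an
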