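import Mathlib
import Pool.Agent.Lib.MP_60ed70_an.Defs
import Pool.Agent.Lib.MP_60ed70_an.Hats

/-! The plurisubharmonic function. -/

namespace Pool.Agent.Lib.MP_60ed70_an

open scoped Manifold Topology
open Filter Set

noncomputable section

lemma second_deriv {f f' : ℝ → ℝ} {f'' : ℝ} (h1 : ∀ s, HasDerivAt f (f' s) s)
    (h2 : HasDerivAt f' f'' 0) : iteratedDeriv 2 f 0 = f'' := by
  have e1 : deriv f = f' := by
    funext s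
    exact (h1 s).deriv
  rw [iteratedDeriv_succ, iteratedDeriv_one, e1]
  exact h2.deriv

lemma norm_sq_line (p a : ℂ) (s : ℝ) :
    ‖p + (s : ℂ) * a‖ ^ 2 = ‖p‖ ^ 2 + 2 * s * (p.re * a.re + p.im * a.im) + s ^ 2 * ‖a‖ ^ 2 := by
  simp only [Complex.sq_norm, Complex.normSq_apply, Complex.add_re, Complex.add_im,
    Complex.mul_re, Complex.mul_im, Complex.ofReal_re, Complex.ofReal_im]
  ring

/-- The model function on `ℂ²`. -/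
def uu (C : ℝ) (θ : ℂ → ℝ) (x : E2) : ℝ := C * ‖x 0‖ ^ 2 + (θ (x 0)) ^ 2 * ‖x 1‖ ^ 2

lemma line_deriv (C : ℝ) (θ : ℂ → ℝ) (D1 : ℂ → ℂ →L[ℝ] ℝ) (D2 : ℂ → ℂ →L[ℝ] ℂ →L[ℝ] ℝ)
    (h1 : ∀ z, HasFDerivAt θ (D1 z) z) (h2 : ∀ z, HasFDerivAt D1 (D2 z) z) (p q a b : ℂ) :
    iteratedDeriv 2 (fun s : ℝ => C * ‖p + (s : ℂ) * a‖ ^ 2 +
      (θ (p + (s : ℂ) * a)) ^ 2 * ‖q + (s : ℂ) * b‖ ^ 2) 0 =
    2 * C * ‖a‖ ^ 2 + 2 * ((D1 p a) ^ 2 + θ p * (D2 p a a)) * ‖q‖ ^ 2 +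
      8 * θ p * (D1 p a) * (q.re * b.re + q.im * b.im) + 2 * (θ p) ^ 2 * ‖b‖ ^ 2 := by
  have hl : ∀ s : ℝ, HasDerivAt (fun s : ℝ => p + (s : ℂ) * a) a s := by
    intro s
    have h := ((Complex.ofRealCLM.hasDerivAt (x := s)).mul_const a).const_add p
    simpa using h
  have ht : ∀ s : ℝ, HasDerivAt (fun s : ℝ => θ (p + (s : ℂ) * a)) (D1 (p + (s : ℂ) * a) a) s :=
    fun s => (h1 _).comp_hasDerivAt s (hl s)
  have ht2 : ∀ s : ℝ, HasDerivAt (fun s : ℝ => D1 (p + (s : ℂ) * a) a)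
      (D2 (p + (s : ℂ) * a) a a) s := by
    intro s
    have h3 : HasDerivAt (fun s : ℝ => D1 (p + (s : ℂ) * a)) (D2 (p + (s : ℂ) * a) a) s :=
      (h2 _).comp_hasDerivAt s (hl s)
    have h4 := h3.clm_apply (hasDerivAt_const s a)
    simpa using h4
  simp only [norm_sq_line]
  set α := p.re * a.re + p.im * a.im with hα
  set β := q.re * b.re + q.im * b.im with hβ
  have hquad : ∀ (A B D : ℝ) (s : ℝ),
      HasDerivAt (fun s : ℝ => A + 2 * s * B + s ^ 2 * D) (2 * B + 2 * s * D) s := by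
    intro A B D s
    have h5 : HasDerivAt (fun s : ℝ => A + 2 * s * B + s ^ 2 * D)
        (0 + 2 * 1 * B + (2 * s ^ (2 - 1) * 1) * D) s := by
      apply HasDerivAt.add
      · apply HasDerivAt.add (hasDerivAt_const s A)
        exact ((hasDerivAt_id s).const_mul 2).mul_const B
      · exact ((hasDerivAt_id s).pow 2).mul_const D
    convert h5 using 1
    ring
  have hquad2 : ∀ (B D : ℝ) (s : ℝ), HasDerivAt (fun s : ℝ => 2 * B + 2 * s * D) (2 * D) s := by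
    intro B D s
    have h5 : HasDerivAt (fun s : ℝ => 2 * B + 2 * s * D) (0 + 2 * 1 * D) s := by
      apply HasDerivAt.add (hasDerivAt_const s _)
      exact ((hasDerivAt_id s).const_mul 2).mul_const D
    convert h5 using 1
    ring
  apply second_deriv
    (f' := fun s : ℝ => C * (2 * α + 2 * s * ‖a‖ ^ 2) +
      ((2 * θ (p + (s : ℂ) * a) * D1 (p + (s : ℂ) * a) a) *
          (‖q‖ ^ 2 + 2 * s * β + s ^ 2 * ‖b‖ ^ 2) +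
        (θ (p + (s : ℂ) * a)) ^ 2 * (2 * β + 2 * s * ‖b‖ ^ 2)))
  · intro s
    apply HasDerivAt.add
    · exact (hquad _ _ _ s).const_mul C
    · have h6 := ((ht s).pow 2).mul (hquad (‖q‖ ^ 2) β (‖b‖ ^ 2) s)
      refine h6.congr_deriv ?_
      simp only [Nat.cast_ofNat, Nat.add_one_sub_one, pow_one, Pi.pow_apply]
  · have h7 := (((hquad2 α (‖a‖ ^ 2) 0).const_mul C).add
      (((((ht 0).const_mul 2).mul (ht2 0)).mul (hquad (‖q‖ ^ 2) β (‖b‖ ^ 2) 0)).add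
        (((ht 0).pow 2).mul (hquad2 β (‖b‖ ^ 2) 0))))
    refine h7.congr_deriv ?_
    simp only [Pi.mul_apply, Pi.pow_apply, Nat.cast_ofNat, Nat.add_one_sub_one, pow_one,
      Complex.ofReal_zero, zero_mul, add_zero, mul_zero, ne_eq, OfNat.ofNat_ne_zero, not_false_eq_true, zero_pow]
    ring

lemma leviForm_uu (C : ℝ) (θ : ℂ → ℝ) (D1 : ℂ → ℂ →L[ℝ] ℝ) (D2 : ℂ → ℂ →L[ℝ] ℂ →L[ℝ] ℝ)
    (h1 : ∀ z, HasFDerivAt θ (D1 z) z) (h2 : ∀ z, HasFDerivAt D1 (D2 z) z) (x v : E2) :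
    leviForm (uu C θ) x v = 4 * C * ‖v 0‖ ^ 2 +
      2 * ‖x 1‖ ^ 2 * ((D1 (x 0) (v 0)) ^ 2 + (D1 (x 0) (Complex.I * v 0)) ^ 2 +
        θ (x 0) * (D2 (x 0) (v 0) (v 0) + D2 (x 0) (Complex.I * v 0) (Complex.I * v 0))) +
      8 * θ (x 0) * ((D1 (x 0) (v 0)) * ((x 1).re * (v 1).re + (x 1).im * (v 1).im) +
        (D1 (x 0) (Complex.I * v 0)) * ((x 1).im * (v 1).re - (x 1).re * (v 1).im)) +
      4 * (θ (x 0)) ^ 2 * ‖v 1‖ ^ 2 := by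
  have e1 : (fun s : ℝ => uu C θ (x + (s : ℂ) • v)) = fun s : ℝ => C * ‖x 0 + (s : ℂ) * v 0‖ ^ 2 +
      (θ (x 0 + (s : ℂ) * v 0)) ^ 2 * ‖x 1 + (s : ℂ) * v 1‖ ^ 2 := rfl
  have e2 : (fun s : ℝ => uu C θ (x + ((s : ℂ) * Complex.I) • v)) =
      fun s : ℝ => C * ‖x 0 + (s : ℂ) * (Complex.I * v 0)‖ ^ 2 +
      (θ (x 0 + (s : ℂ) * (Complex.I * v 0))) ^ 2 * ‖x 1 + (s : ℂ) * (Complex.I * v 1)‖ ^ 2 := by
    funext s
    have a0 : (x + ((s : ℂ) * Complex.I) • v) 0 = x 0 + (s : ℂ) * (Complex.I * v 0) := by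
      show x 0 + ((s : ℂ) * Complex.I) * v 0 = _
      ring
    have a1 : (x + ((s : ℂ) * Complex.I) • v) 1 = x 1 + (s : ℂ) * (Complex.I * v 1) := by
      show x 1 + ((s : ℂ) * Complex.I) * v 1 = _
      ring
    rw [uu, a0, a1]
  unfold leviForm
  rw [e1, e2, line_deriv C θ D1 D2 h1 h2, line_deriv C θ D1 D2 h1 h2]
  have n0 : ‖Complex.I * v 0‖ = ‖v 0‖ := by simp
  have n1 : ‖Complex.I * v 1‖ = ‖v 1‖ := by simp
  rw [n0, n1]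
  simp only [Complex.mul_re, Complex.mul_im, Complex.I_re, Complex.I_im]
  ring

/-- The key inequality. -/
lemma levi_ineq (C M t t1 t2 s1 s2 A : ℝ) (q b : ℂ) (hA : 0 ≤ A) (hq : ‖q‖ ≤ 1) (ht0 : 0 ≤ t)
    (ht1 : t ≤ 1) (hM : 0 ≤ M) (b1 : |t1| ≤ M * A) (b2 : |t2| ≤ M * A) (b3 : |s1| ≤ M * A ^ 2)
    (b4 : |s2| ≤ M * A ^ 2) (hC : M ^ 2 + M ≤ C) :
    0 ≤ 4 * C * A ^ 2 + 2 * ‖q‖ ^ 2 * (t1 ^ 2 + t2 ^ 2 + t * (s1 + s2)) +
      8 * t * (t1 * (q.re * b.re + q.im * b.im) + t2 * (q.im * b.re - q.re * b.im)) +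
      4 * t ^ 2 * ‖b‖ ^ 2 := by
  have hQ : ‖q‖ ^ 2 = q.re ^ 2 + q.im ^ 2 := by
    rw [Complex.sq_norm, Complex.normSq_apply]; ring
  have hB : ‖b‖ ^ 2 = b.re ^ 2 + b.im ^ 2 := by
    rw [Complex.sq_norm, Complex.normSq_apply]; ring
  have key : 8 * t * (t1 * (q.re * b.re + q.im * b.im) + t2 * (q.im * b.re - q.re * b.im)) +
      4 * t ^ 2 * ‖b‖ ^ 2 + 4 * (t1 ^ 2 + t2 ^ 2) * ‖q‖ ^ 2 =
      4 * ((t * b.re + t1 * q.re + t2 * q.im) ^ 2 + (t * b.im + t1 * q.im - t2 * q.re) ^ 2) := by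
    rw [hQ, hB]; ring
  have hq2 : ‖q‖ ^ 2 ≤ 1 := by
    have := norm_nonneg q
    nlinarith
  have hq0 : 0 ≤ ‖q‖ ^ 2 := by positivity
  have c1 : t1 ^ 2 ≤ (M * A) ^ 2 := sq_le_sq' (by linarith [abs_le.1 b1]) (abs_le.1 b1).2
  have c2 : t2 ^ 2 ≤ (M * A) ^ 2 := sq_le_sq' (by linarith [abs_le.1 b2]) (abs_le.1 b2).2
  have c3 : -(M * A ^ 2) ≤ s1 := (abs_le.1 b3).1
  have c4 : -(M * A ^ 2) ≤ s2 := (abs_le.1 b4).1
  have c5 : -(2 * (M * A ^ 2)) ≤ t * (s1 + s2) := by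
    have h1 : -(2 * (M * A ^ 2)) ≤ s1 + s2 := by linarith
    have h2 : 0 ≤ M * A ^ 2 := by positivity
    by_cases h : 0 ≤ s1 + s2
    · have := mul_nonneg ht0 h
      linarith
    · push Not at h
      nlinarith
  have hM2 : 0 ≤ M * A ^ 2 := by positivity
  have c6 : ‖q‖ ^ 2 * (t1 ^ 2 + t2 ^ 2) ≤ 2 * (M * A) ^ 2 := by
    calc ‖q‖ ^ 2 * (t1 ^ 2 + t2 ^ 2) ≤ 1 * (t1 ^ 2 + t2 ^ 2) := by gcongr
      _ ≤ 2 * (M * A) ^ 2 := by linarith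
  have c7 : -(2 * (M * A ^ 2)) ≤ ‖q‖ ^ 2 * (t * (s1 + s2)) := by
    by_cases h : 0 ≤ t * (s1 + s2)
    · have := mul_nonneg hq0 h
      linarith
    · push Not at h
      have h8 : ‖q‖ ^ 2 * (-(t * (s1 + s2))) ≤ 1 * (-(t * (s1 + s2))) := by
        apply mul_le_mul_of_nonneg_right hq2
        linarith
      linarith
  have c8 : (M ^ 2 + M) * A ^ 2 ≤ C * A ^ 2 := mul_le_mul_of_nonneg_right hC (by positivity)
  have e : 4 * C * A ^ 2 + 2 * ‖q‖ ^ 2 * (t1 ^ 2 + t2 ^ 2 + t * (s1 + s2)) +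
      8 * t * (t1 * (q.re * b.re + q.im * b.im) + t2 * (q.im * b.re - q.re * b.im)) +
      4 * t ^ 2 * ‖b‖ ^ 2 = 4 * (C * A ^ 2) + 2 * (‖q‖ ^ 2 * (t * (s1 + s2))) -
      2 * (‖q‖ ^ 2 * (t1 ^ 2 + t2 ^ 2)) +
      4 * ((t * b.re + t1 * q.re + t2 * q.im) ^ 2 + (t * b.im + t1 * q.im - t2 * q.re) ^ 2) := by
    rw [← key]; ring
  rw [e]
  have c9 : (M * A) ^ 2 + M * A ^ 2 = (M ^ 2 + M) * A ^ 2 := by ring
  have h10 := sq_nonneg (t * b.re + t1 * q.re + t2 * q.im)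
  have h11 := sq_nonneg (t * b.im + t1 * q.im - t2 * q.re)
  linarith

end

end Pool.Agent.Lib.MP_60ed70_an
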