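import Mathlib
import Pool.Agent.Lib.MP_60ed70_an.Psh

/-! The counterexample: nucleus not contained in core. -/

namespace Pool.Agent.Lib.MP_60ed70_an

open scoped Manifold Topology
open Filter Set

noncomputable section

/-- The cut-off function. -/
def th : ContDiffBump (0 : ℂ) := ⟨1 / 4, 1 / 2, by norm_num, by norm_num⟩

lemma th_smooth : ContDiff ℝ ((⊤ : ℕ∞) : WithTop ℕ∞) (th : ℂ → ℝ) := th.contDiff

lemma th_zero_of (z : ℂ) (hz : 1 / 2 < ‖z‖) : (th : ℂ → ℝ) z = 0 := by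
  apply th.zero_of_le_dist
  rw [dist_zero_right]
  exact hz.le

lemma th_at_zero : (th : ℂ → ℝ) 0 = 1 := by
  apply th.one_of_mem_closedBall
  exact Metric.mem_closedBall_self (by show (0 : ℝ) ≤ 1 / 4; norm_num)

/-- First derivative. -/
def dth1 : ℂ → ℂ →L[ℝ] ℝ := fderiv ℝ (th : ℂ → ℝ)
/-- Second derivative. -/
def dth2 : ℂ → ℂ →L[ℝ] ℂ →L[ℝ] ℝ := fderiv ℝ dth1

lemma dth1_smooth : ContDiff ℝ ((⊤ : ℕ∞) : WithTop ℕ∞) dth1 :=
  th_smooth.fderiv_right (m := ((⊤ : ℕ∞) : WithTop ℕ∞)) (by norm_cast)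

lemma hd1 (z : ℂ) : HasFDerivAt (th : ℂ → ℝ) (dth1 z) z :=
  ((th_smooth.differentiable (by simp)) z).hasFDerivAt

lemma hd2 (z : ℂ) : HasFDerivAt dth1 (dth2 z) z :=
  ((dth1_smooth.differentiable (by simp)) z).hasFDerivAt

lemma fderiv_vanish {F : Type*} [NormedAddCommGroup F] [NormedSpace ℝ F] {f : ℂ → F}
    (h : ∀ z : ℂ, 1 / 2 < ‖z‖ → f z = 0) (z : ℂ) (hz : 1 / 2 < ‖z‖) : fderiv ℝ f z = 0 := by
  have e : f =ᶠ[𝓝 z] fun _ => (0 : F) := by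
    filter_upwards [continuous_norm.continuousAt.eventually (lt_mem_nhds hz)] with y hy
    exact h y hy
  rw [e.fderiv_eq]
  simp

lemma bound_of_vanish {F : Type*} [NormedAddCommGroup F] {f : ℂ → F}
    (h : ∀ z : ℂ, 1 / 2 < ‖z‖ → f z = 0) (hc : Continuous f) : ∃ M : ℝ, ∀ z, ‖f z‖ ≤ M := by
  obtain ⟨M, hM⟩ := (isCompact_closedBall (0 : ℂ) 1).exists_bound_of_continuousOn hc.continuousOn
  refine ⟨M, fun z => ?_⟩
  by_cases hz : ‖z‖ ≤ 1
  · exact hM z (by simpa using hz)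
  · rw [h z (by linarith [not_le.mp hz]), norm_zero]
    exact (norm_nonneg _).trans (hM 0 (by simp))

lemma bound1 : ∃ M : ℝ, ∀ z, ‖dth1 z‖ ≤ M :=
  bound_of_vanish (f := dth1) (fderiv_vanish th_zero_of) dth1_smooth.continuous

lemma cont_dth2 : Continuous dth2 := dth1_smooth.continuous_fderiv (by simp)

lemma dth2_vanish (z : ℂ) (hz : 1 / 2 < ‖z‖) : dth2 z = 0 :=
  fderiv_vanish (f := dth1) (fderiv_vanish th_zero_of) z hz

lemma bound2 : ∃ M : ℝ, ∀ z, ‖dth2 z‖ ≤ M :=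
  bound_of_vanish (f := dth2) dth2_vanish cont_dth2

lemma exists_M : ∃ M : ℝ, 0 ≤ M ∧ (∀ z, ‖dth1 z‖ ≤ M) ∧ ∀ z, ‖dth2 z‖ ≤ M := by
  obtain ⟨M1, h1⟩ := bound1
  obtain ⟨M2, h2⟩ := bound2
  refine ⟨max 0 (max M1 M2), le_max_left _ _, fun z => ?_, fun z => ?_⟩
  · exact (h1 z).trans ((le_max_left _ _).trans (le_max_right _ _))
  · exact (h2 z).trans ((le_max_right _ _).trans (le_max_right _ _))

lemma uu_smooth (C : ℝ) {θ : ℂ → ℝ} (h : ContDiff ℝ ((⊤ : ℕ∞) : WithTop ℕ∞) θ) :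
    ContDiff ℝ ((⊤ : ℕ∞) : WithTop ℕ∞) (uu C θ) := by
  have p0 : ContDiff ℝ ((⊤ : ℕ∞) : WithTop ℕ∞) (fun x : E2 => x 0) := by fun_prop
  have p1 : ContDiff ℝ ((⊤ : ℕ∞) : WithTop ℕ∞) (fun x : E2 => x 1) := by fun_prop
  have n0 : ContDiff ℝ ((⊤ : ℕ∞) : WithTop ℕ∞) (fun x : E2 => ‖x 0‖ ^ 2) := p0.norm_sq ℝ
  have n1 : ContDiff ℝ ((⊤ : ℕ∞) : WithTop ℕ∞) (fun x : E2 => ‖x 1‖ ^ 2) := p1.norm_sq ℝ
  exact (contDiff_const.mul n0).add (((h.comp p0).pow 2).mul n1)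

lemma leviForm_congr {u w : E2 → ℝ} {x : E2} (h : u =ᶠ[𝓝 x] w) (v : E2) :
    leviForm u x v = leviForm w x v := by
  unfold leviForm
  have t1 : Tendsto (fun s : ℝ => x + (s : ℂ) • v) (𝓝 0) (𝓝 x) := by
    have : Continuous (fun s : ℝ => x + (s : ℂ) • v) := by fun_prop
    simpa using this.tendsto 0
  have t2 : Tendsto (fun s : ℝ => x + ((s : ℂ) * Complex.I) • v) (𝓝 0) (𝓝 x) := by
    have : Continuous (fun s : ℝ => x + ((s : ℂ) * Complex.I) • v) := by fun_prop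
    simpa using this.tendsto 0
  have e1 : (fun s : ℝ => u (x + (s : ℂ) • v)) =ᶠ[𝓝 0] fun s : ℝ => w (x + (s : ℂ) • v) :=
    t1.eventually h
  have e2 : (fun s : ℝ => u (x + ((s : ℂ) * Complex.I) • v)) =ᶠ[𝓝 0]
      fun s : ℝ => w (x + ((s : ℂ) * Complex.I) • v) := t2.eventually h
  rw [e1.iteratedDeriv_eq, e2.iteratedDeriv_eq]

lemma levi_flat (C : ℝ) (hC : 0 ≤ C) (x v : E2) : 0 ≤ leviForm (uu C (fun _ => 0)) x v := by
  rw [leviForm_uu C (fun _ => 0) (fun _ => 0) (fun _ => 0) (fun z => hasFDerivAt_const _ _)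
    (fun z => hasFDerivAt_const _ _)]
  simp only [zero_apply, mul_zero, zero_mul, ne_eq, OfNat.ofNat_ne_zero,
    not_false_eq_true, zero_pow, add_zero]
  positivity

lemma levi_nonneg (M C : ℝ) (hM : 0 ≤ M) (h1 : ∀ z, ‖dth1 z‖ ≤ M) (h2 : ∀ z, ‖dth2 z‖ ≤ M)
    (hC : M ^ 2 + M ≤ C) (x v : E2) (hx : ‖x 1‖ ≤ 1) : 0 ≤ leviForm (uu C th) x v := by
  rw [leviForm_uu C th dth1 dth2 hd1 hd2]
  have nI : ‖Complex.I * v 0‖ = ‖v 0‖ := by simp
  have k1 : ∀ (z a : ℂ) , |dth1 z a| ≤ M * ‖a‖ := fun z a => by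
    have := (dth1 z).le_opNorm a
    rw [Real.norm_eq_abs] at this
    exact this.trans (by gcongr; exact h1 z)
  have k2 : ∀ (z a : ℂ) , |dth2 z a a| ≤ M * ‖a‖ ^ 2 := fun z a => by
    have := (dth2 z a).le_opNorm a
    rw [Real.norm_eq_abs] at this
    have h3 := (dth2 z).le_opNorm a
    calc |dth2 z a a| ≤ ‖dth2 z a‖ * ‖a‖ := this
      _ ≤ (‖dth2 z‖ * ‖a‖) * ‖a‖ := by gcongr
      _ ≤ (M * ‖a‖) * ‖a‖ := by gcongr; exact h2 z
      _ = M * ‖a‖ ^ 2 := by ring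
  have b2 := k1 (x 0) (Complex.I * v 0)
  have b4 := k2 (x 0) (Complex.I * v 0)
  rw [nI] at b2 b4
  exact levi_ineq C M _ _ _ _ _ _ (x 1) (v 1) (norm_nonneg _) hx th.nonneg th.le_one hM
    (k1 _ _) b2 (k2 _ _) b4 hC

/-- The plurisubharmonic function on the surface. -/
def phi (C : ℝ) (q : MM) : ℝ := C * ‖q.1‖ ^ 2 + ((th : ℂ → ℝ) q.1) ^ 2 * ‖el q.2‖ ^ 2

/-- The neighbourhood of `K`. -/
def UU : Set MM := {q | 1 / 2 < ‖q.1‖} ∪ {q | q.2 ∈ (fun w : ℂ => (w : P1)) '' Metric.ball 0 1}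

lemma isOpen_UU : IsOpen UU := by
  apply IsOpen.union
  · exact isOpen_lt continuous_const continuous_fst.norm
  · exact (OnePoint.isOpenMap_coe _ Metric.isOpen_ball).preimage continuous_snd

lemma KK_sub_UU : KK ⊆ UU := by
  rintro q (hq | ⟨_, hq⟩)
  · left
    show 1 / 2 < ‖q.1‖
    rw [hq]; norm_num
  · right
    exact ⟨0, by simp, hq.symm⟩

lemma phi_c0 (C : ℝ) : phi C ∘ c0.symm = uu C th := by
  funext x
  rfl

lemma germ_far (C : ℝ) (x : E2) (hx : 1 / 2 < ‖x 0‖) (g : E2 → P1) :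
    (fun y : E2 => C * ‖y 0‖ ^ 2 + ((th : ℂ → ℝ) (y 0)) ^ 2 * ‖el (g y)‖ ^ 2) =ᶠ[𝓝 x]
      uu C (fun _ => 0) := by
  have hc : Continuous (fun y : E2 => ‖y 0‖) := by fun_prop
  have : ∀ᶠ y in 𝓝 x, 1 / 2 < ‖y 0‖ := hc.continuousAt.eventually (lt_mem_nhds hx)
  filter_upwards [this] with y hy
  rw [th_zero_of _ hy]
  simp [uu]

lemma phi_psh (M C : ℝ) (hM : 0 ≤ M) (h1 : ∀ z, ‖dth1 z‖ ≤ M) (h2 : ∀ z, ‖dth2 z‖ ≤ M)
    (hC : M ^ 2 + M ≤ C) (q : MM) (hq : q ∈ UU) : SmoothPshAt 2 (phi C) q := by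
  have hC0 : 0 ≤ C := by nlinarith
  have hflat : ContDiff ℝ ((⊤ : ℕ∞) : WithTop ℕ∞) (uu C (fun _ => 0)) :=
    uu_smooth C contDiff_const
  by_cases hinf : q.2 = OnePoint.infty
  · have hfar : 1 / 2 < ‖q.1‖ := by
      rcases hq with hq | ⟨w, _, hw⟩
      · exact hq
      · rw [hinf] at hw
        exact absurd hw (OnePoint.coe_ne_infty w)
    unfold SmoothPshAt
    rw [chartAt_infty q hinf]
    have e : phi C ∘ c1.symm =ᶠ[𝓝 (c1 q)] uu C (fun _ => 0) :=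
      germ_far C (c1 q) (by rw [c1_apply, vec_zero]; exact hfar) (fun y => J ((y 1 : ℂ) : P1))
    refine ⟨hflat.contDiffAt.congr_of_eventuallyEq e, fun v => ?_⟩
    rw [leviForm_congr e]
    exact levi_flat C hC0 _ _
  · unfold SmoothPshAt
    rw [chartAt_ne q hinf, phi_c0]
    refine ⟨(uu_smooth C th_smooth).contDiffAt, fun v => ?_⟩
    rcases hq with hq | ⟨w, hw, hw2⟩
    · have e : uu C th =ᶠ[𝓝 (c0 q)] uu C (fun _ => 0) :=
        germ_far C (c0 q) (by rw [c0_apply, vec_zero]; exact hq) (fun y => ((y 1 : ℂ) : P1))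
      rw [leviForm_congr e]
      exact levi_flat C hC0 _ _
    · apply levi_nonneg M C hM h1 h2 hC
      rw [c0_apply, vec_one, ← hw2]
      simp only [el_coe]
      simpa using (Metric.mem_ball.1 hw).le

/-- The special point. -/
def zeta : MM := ((0 : ℂ), (((0 : ℂ)) : P1))

lemma zeta_mem : zeta ∈ KK := Or.inr ⟨by show ‖(0 : ℂ)‖ ≤ 1; simp, rfl⟩

lemma phi_strict (C : ℝ) (hC : 0 < C) : StrictAt 2 (phi C) zeta := by
  intro v hv
  rw [chartAt_ne zeta (OnePoint.coe_ne_infty _), phi_c0,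
    leviForm_uu C th dth1 dth2 hd1 hd2]
  have e0 : (c0 zeta) 0 = 0 := rfl
  have e1 : (c0 zeta) 1 = 0 := rfl
  rw [e0, e1, th_at_zero]
  simp only [norm_zero, Complex.zero_re, Complex.zero_im, zero_mul, ne_eq, OfNat.ofNat_ne_zero,
    not_false_eq_true, zero_pow, mul_zero, add_zero, sub_self, one_pow, mul_one]
  by_cases h0 : v 0 = 0
  · have h1 : v 1 ≠ 0 := by
      intro h1
      apply hv
      ext i
      fin_cases i
      · exact h0
      · exact h1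
    have : 0 < ‖v 1‖ := norm_pos_iff.2 h1
    positivity
  · have : 0 < ‖v 0‖ := norm_pos_iff.2 h0
    positivity

lemma zeta_not_core : zeta ∉ core 2 KK := by
  rintro ⟨_, h⟩
  apply h
  obtain ⟨M, hM, h1, h2⟩ := exists_M
  refine ⟨UU, phi (M ^ 2 + M + 1), isOpen_UU, KK_sub_UU, fun x hx => ?_, ?_⟩
  · exact phi_psh M _ hM h1 h2 (by linarith) x hx
  · exact phi_strict _ (by positivity)

lemma cut_eq {K' : Set MM} (h : IsCut 2 KK K') : K' = KK := by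
  obtain ⟨_, _, r, U, Φ, _, _, hU, hsub, _, hΦ, hdis, rfl⟩ := h
  ext q
  constructor
  · intro hq; exact hq.1
  · intro hq
    refine ⟨hq, ?_⟩
    rintro ⟨z, hz, rfl⟩
    have hz' := interior_subset hz
    exact hat_disjoint r U Φ hU hsub hΦ (fun w hw1 hw2 hwK =>
      Set.disjoint_left.1 hdis ⟨w, ⟨hw1, hw2⟩, rfl⟩ hwK) z hz'.1 hz'.2 hq

lemma chain_eq {K' : Set MM} (h : Relation.ReflTransGen (IsCut 2) KK K') : K' = KK := by
  induction h with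
  | refl => rfl
  | tail _ h2 ih =>
    subst ih
    exact cut_eq h2

lemma zeta_nucleus : zeta ∈ nucleus 2 KK := by
  intro K' h
  rw [chain_eq h]
  exact zeta_mem

end

end Pool.Agent.Lib.MP_60ed70_an
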